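import Pool.Agent.H76.QE.Targets

/-! Board `qd_modules`, row COV (helper70): few combinations lead to vectors with many zeros. -/

set_option autoImplicit false

namespace Pool.Agent.H70.QD

open Finset Pool.Agent.H76.QE
open Pool.Agent.H1.LP (supp ip comb)

theorem supp_sub_le {p M : ℕ} (C C' : Fin M → ZMod p) :
    (supp (C - C')).card ≤ (supp C).card + (supp C').card := by
  refine (card_le_card ?_).trans (card_union_le _ _)
  intro i hi
  unfold supp at hi ⊢
  rw [mem_filter] at hi
  rw [mem_union, mem_filter, mem_filter]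
  by_contra h
  push Not at h
  apply hi.2
  have h1 : C i = 0 := h.1 (mem_univ _)
  have h3 : C' i = 0 := h.2 (mem_univ _)
  rw [Pi.sub_apply, h1, h3, sub_zero]

theorem supp_sub_comm {p M : ℕ} (C C' : Fin M → ZMod p) : supp (C - C') = supp (C' - C) := by
  unfold supp
  ext i
  rw [mem_filter, mem_filter, Pi.sub_apply, Pi.sub_apply, sub_ne_zero, sub_ne_zero]
  exact ⟨fun h => ⟨h.1, h.2.symm⟩, fun h => ⟨h.1, h.2.symm⟩⟩

/-- **COV** -/
theorem pf_COV : T_COV := by
  classical
  intro p M N E h t₀ t₁ τ _ A hNS hE hτ v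
  obtain ⟨W, hW⟩ : ∃ W : Finset (Fin M → ZMod p),
      W = (CC p M τ).filter (fun C => (supp (v + comb A C)).card ≤ h) := ⟨_, rfl⟩
  have hW1 : ∀ C ∈ W, (supp C).card ≤ τ ∧ (supp (v + comb A C)).card ≤ h := by
    intro C hC
    rw [hW, mem_filter] at hC
    have h1 := hC.1
    unfold CC at h1
    rw [mem_filter] at h1
    exact ⟨h1.2, hC.2⟩
  obtain ⟨P, hP, hPmax⟩ : ∃ P ∈ W.powerset.filter (fun P => ∀ C ∈ P, ∀ C' ∈ P, C ≠ C' →
      t₀ < (supp (C - C')).card), ∀ P' ∈ W.powerset.filter (fun P => ∀ C ∈ P, ∀ C' ∈ P, C ≠ C' →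
      t₀ < (supp (C - C')).card), P'.card ≤ P.card := by
    refine exists_max_image _ _ ⟨∅, ?_⟩
    rw [mem_filter]
    refine ⟨empty_mem_powerset _, ?_⟩
    intro C hC
    exact absurd hC (notMem_empty _)
  rw [mem_filter, mem_powerset] at hP
  have hcard : P.card < 2 * E := by
    by_contra hge
    rw [not_lt] at hge
    obtain ⟨P', hP', hc⟩ := exists_subset_card_eq hge
    have e : Fin (2 * E) ≃ P' := (Fin.castOrderIso hc.symm).toEquiv.trans P'.equivFin.symm
    refine hNS v (fun i => (e i : Fin M → ZMod p)) ?_ ?_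
    · intro i
      exact (hW1 _ (hP.1 (hP' (e i).2))).2
    · intro i j hij
      have hne : (e i : Fin M → ZMod p) ≠ (e j : Fin M → ZMod p) := by
        intro heq
        exact hij (e.injective (Subtype.ext heq))
      refine ⟨hP.2 _ (hP' (e i).2) _ (hP' (e j).2) hne, ?_⟩
      have h1 := supp_sub_le (e i : Fin M → ZMod p) (e j : Fin M → ZMod p)
      have h2 := (hW1 _ (hP.1 (hP' (e i).2))).1
      have h3 := (hW1 _ (hP.1 (hP' (e j).2))).1
      omega
  have hcov : W ⊆ P.biUnion (fun C' => (CC p M t₀).image (fun D => C' + D)) := by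
    intro C hC
    rw [mem_biUnion]
    by_contra hno
    push Not at hno
    have hfar : ∀ C' ∈ P, t₀ < (supp (C - C')).card := by
      intro C' hC'
      by_contra hle
      rw [not_lt] at hle
      apply hno C' hC'
      rw [mem_image]
      refine ⟨C - C', ?_, add_sub_cancel _ _⟩
      unfold CC
      rw [mem_filter]
      exact ⟨mem_univ _, hle⟩
    have hCP : C ∉ P := by
      intro hCP
      have h1 := hfar C hCP
      rw [sub_self] at h1
      have h2 : supp (0 : Fin M → ZMod p) = ∅ := by
        unfold supp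
        rw [filter_eq_empty_iff]
        intro i _ hi
        exact hi rfl
      rw [h2, card_empty] at h1
      omega
    have h1 := hPmax (insert C P) (by
      rw [mem_filter, mem_powerset]
      refine ⟨insert_subset hC hP.1, ?_⟩
      intro C1 h1 C2 h2 hne
      rw [mem_insert] at h1 h2
      rcases h1 with h1 | h1 <;> rcases h2 with h2 | h2
      · exact absurd (h1.trans h2.symm) hne
      · rw [h1]
        exact hfar C2 h2
      · rw [h2, supp_sub_comm]
        exact hfar C1 h1
      · exact hP.2 C1 h1 C2 h2 hne)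
    rw [card_insert_of_notMem hCP] at h1
    omega
  rw [← hW]
  calc W.card ≤ (P.biUnion (fun C' => (CC p M t₀).image (fun D => C' + D))).card :=
        card_le_card hcov
    _ ≤ ∑ C' ∈ P, ((CC p M t₀).image (fun D => C' + D)).card := card_biUnion_le
    _ ≤ ∑ _C' ∈ P, (CC p M t₀).card := sum_le_sum fun C' _ => card_image_le
    _ = P.card * (CC p M t₀).card := by rw [sum_const, smul_eq_mul]
    _ ≤ 2 * E * (CC p M t₀).card := Nat.mul_le_mul_right _ hcard.le

end Pool.Agent.H70.QD
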